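import Mathlib
import Pool.Agent.H362SP.Conn

set_option autoImplicit false

/-! The least upper bound `f H` of the treewidths of the graphs with no minor `H`, for disjoint
unions of any number of graphs: if `k` graphs `H i` have `f (H i) ≤ a`, then their disjoint union
`H` has `f H ≤ 114 k ^ 7 (a + 1)`. For two graphs, `f (H₁ ⊕ H₂) ≤ 114 (max (f H₁) (f H₂) + 1)`.
The vertices of a graph of treewidth at least `114 k ^ 7 s` can be coloured with `k` colours such
that each colour class induces a graph of treewidth at least `s`; if the graph is connected, the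
colour classes can be chosen connected. -/

namespace Pool.Agent.Results.MP_14fa4b_co.ManySummands

open Pool.Agent.H362SP

/-- `G` has a tree decomposition of width at most `w`: a tree `T` and bags covering all vertices and
edges, such that the nodes whose bag contains a given vertex induce a connected subgraph of `T`, all
bags having at most `w + 1` vertices -/
def TwLE {V : Type} (G : SimpleGraph V) (w : ℕ) : Prop :=
  ∃ m : ℕ, ∃ T : SimpleGraph (Fin m), ∃ bag : Fin m → Set V,
    T.IsTree ∧ (∀ v, ∃ i, v ∈ bag i) ∧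
    (∀ u v, G.Adj u v → ∃ i, u ∈ bag i ∧ v ∈ bag i) ∧
    (∀ v, (T.induce {i | v ∈ bag i}).Connected) ∧
    ∀ i, (bag i).ncard ≤ w + 1

/-- the treewidth -/
noncomputable def tw {V : Type} (G : SimpleGraph V) : ℕ := sInf {w | TwLE G w}

/-- `H` is a minor of `G`: there are pairwise disjoint connected branch sets, one for each vertex of
`H`, with an edge of `G` between any two branch sets belonging to adjacent vertices of `H` -/
def IsMinor {W V : Type} (H : SimpleGraph W) (G : SimpleGraph V) : Prop :=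
  ∃ B : W → Set V, (∀ x, (G.induce (B x)).Connected) ∧
    (∀ x y, x ≠ y → Disjoint (B x) (B y)) ∧
    ∀ x y, H.Adj x y → ∃ u ∈ B x, ∃ v ∈ B y, G.Adj u v

/-- `f H`: the supremum (possibly `⊤`) of the treewidths of the finite graphs with no minor `H` -/
noncomputable def f {W : Type} (H : SimpleGraph W) : ℕ∞ :=
  ⨆ (V : Type) (_ : Fintype V) (G : SimpleGraph V) (_ : ¬ IsMinor H G), (tw G : ℕ∞)

/-- the disjoint union of the graphs `H i` -/
def disjUnion {ι : Type} {W : ι → Type} (H : ∀ i, SimpleGraph (W i)) :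
    SimpleGraph (Σ i, W i) where
  Adj x y := ∃ (i : ι) (a b : W i), x = ⟨i, a⟩ ∧ y = ⟨i, b⟩ ∧ (H i).Adj a b
  symm := ⟨by
    rintro _ _ ⟨i, a, b, rfl, rfl, h⟩
    exact ⟨i, b, a, rfl, rfl, h.symm⟩⟩
  loopless := ⟨by
    rintro _ ⟨i, a, b, rfl, hb, h⟩
    have h1 : a = b := eq_of_heq (Sigma.mk.inj hb).2
    subst h1
    exact (H i).loopless.irrefl a h⟩

lemma tw_le_f {W : Type} (H : SimpleGraph W) (V : Type) [inst : Fintype V] (G : SimpleGraph V)
    (h : ¬ IsMinor H G) : (tw G : ℕ∞) ≤ f H := by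
  unfold f
  exact le_iSup_of_le V (le_iSup_of_le inst (le_iSup_of_le G (le_iSup_of_le h le_rfl)))

lemma exists_twLE {V : Type} [Fintype V] (G : SimpleGraph V) : TwLE G (tw G) := by
  classical
  have h : {w | TwLE G w}.Nonempty := by
    obtain ⟨m, T, bag, h1, h2, h3, h4, h5⟩ := Pool.Agent.W126.Split.td_of_bw
      (Pool.Agent.W126.Split.bw_card (G := G) Finset.univ)
    exact ⟨_, m, T, bag, h1, h2, h3, h4, fun i => (h5 i).trans (Nat.le_succ _)⟩
  exact Nat.sInf_mem h

/-- a graph without decomposition of small treewidth -/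
lemma not_bw {V : Type} [Fintype V] [DecidableEq V] (G : SimpleGraph V) (w : ℕ) (hw : 1 ≤ w)
    (h : w ≤ tw G) : ¬ Pool.Agent.W126.Split.Bw G Finset.univ w := by
  intro hb
  obtain ⟨m, T, bag, h1, h2, h3, h4, h5⟩ := Pool.Agent.W126.Split.td_of_bw hb
  have h6 : TwLE G (w - 1) := ⟨m, T, bag, h1, h2, h3, h4, fun i => (h5 i).trans (by omega)⟩
  have h7 : tw G ≤ w - 1 := Nat.sInf_le h6
  omega

/-- a vertex set that has no decomposition with bags of at most `s` vertices induces a graph of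
treewidth at least `s` -/
lemma le_tw {V : Type} [Fintype V] [DecidableEq V] (G : SimpleGraph V) (A : Set V) (S : Finset V)
    (hSA : (S : Set V) = A) (s : ℕ) (h : ¬ Pool.Agent.W126.Split.Bw G S s) :
    s ≤ tw (G.induce A) := by
  classical
  by_contra hlt
  push Not at hlt
  apply h
  obtain ⟨m, T, bag, h1, h2, h3, h4, h5⟩ := exists_twLE (G.induce A)
  exact Pool.Agent.W126.Split.bw_of_td A S hSA
    ⟨m, T, bag, h1, h2, h3, h4, fun i => (h5 i).trans (by omega)⟩

/-- a minor of an induced subgraph, with branch sets in the whole graph -/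
lemma lift_minor {W V : Type} {H : SimpleGraph W} {G : SimpleGraph V} {A : Set V}
    (h : IsMinor H (G.induce A)) :
    ∃ B : W → Set V, (∀ x, B x ⊆ A) ∧ (∀ x, (G.induce (B x)).Connected) ∧
      (∀ x y, x ≠ y → Disjoint (B x) (B y)) ∧
      ∀ x y, H.Adj x y → ∃ u ∈ B x, ∃ v ∈ B y, G.Adj u v := by
  obtain ⟨B, h1, h2, h3⟩ := h
  refine ⟨fun x => Subtype.val '' (B x), ?_, ?_, ?_, ?_⟩
  · rintro x _ ⟨y, _, rfl⟩
    exact y.2
  · intro x
    let φ : (G.induce A).induce (B x) →g G.induce (Subtype.val '' (B x)) :=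
      { toFun := fun y => ⟨y.1.1, ⟨y.1, y.2, rfl⟩⟩
        map_rel' := fun {a b} hab => hab }
    have hφ : Function.Surjective φ := by
      rintro ⟨_, y, hy, rfl⟩
      exact ⟨⟨y, hy⟩, rfl⟩
    exact (h1 x).map φ hφ
  · intro x y hxy
    rw [Set.disjoint_left]
    rintro _ ⟨a, ha, rfl⟩ ⟨b, hb, hab⟩
    have hab' : b = a := Subtype.ext hab
    subst hab'
    exact (Set.disjoint_left.1 (h2 x y hxy)) ha hb
  · intro x y hxy
    obtain ⟨u, hu, v, hv, huv⟩ := h3 x y hxy
    exact ⟨u, ⟨u, hu, rfl⟩, v, ⟨v, hv, rfl⟩, huv⟩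

/-- the partition theorem -/
lemma partition {V : Type} [Fintype V] (G : SimpleGraph V) (ι : Type) [Fintype ι] [Nonempty ι]
    (s : ℕ) (h : 114 ^ Nat.clog 2 (Fintype.card ι) * s ≤ tw G) :
    ∃ c : V → ι, ∀ i, s ≤ tw (G.induce {v | c v = i}) := by
  classical
  rcases Nat.eq_zero_or_pos s with rfl | hs
  · exact ⟨fun _ => Classical.arbitrary ι, fun i => Nat.zero_le _⟩
  obtain ⟨S, -, h2, h3⟩ := split_many (ι := ι) (Nat.clog 2 (Fintype.card ι))
    (Nat.le_pow_clog (by norm_num) _) hs le_rfl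
    (not_bw G _ (Nat.one_le_iff_ne_zero.2 (by positivity)) h)
  refine ⟨fun v => if h : ∃ i, v ∈ S i then h.choose else Classical.arbitrary ι, fun i => ?_⟩
  set c : V → ι := fun v => if h : ∃ i, v ∈ S i then h.choose else Classical.arbitrary ι with hc
  have hsub : S i ⊆ Finset.univ.filter (fun v => c v = i) := by
    intro v hv
    rw [Finset.mem_filter]
    refine ⟨Finset.mem_univ _, ?_⟩
    have hex : ∃ i, v ∈ S i := ⟨i, hv⟩
    have e1 : c v = hex.choose := by rw [hc]; exact dif_pos hex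
    rw [e1]
    by_contra hne
    exact (Finset.disjoint_left.1 (h2 _ _ hne)) hex.choose_spec hv
  exact le_tw G _ (Finset.univ.filter (fun v => c v = i)) (by simp) s
    (fun hb => h3 i (hb.mono hsub le_rfl))

/-- the partition theorem for connected graphs -/
lemma partition_conn {V : Type} [Fintype V] (G : SimpleGraph V) (hG : G.Connected) (ι : Type)
    [Fintype ι] [Nonempty ι] (s : ℕ) (hs : 1 ≤ s)
    (h : 114 ^ Nat.clog 2 (Fintype.card ι) * s ≤ tw G) :
    ∃ c : V → ι, ∀ i, (G.induce {v | c v = i}).Connected ∧ s ≤ tw (G.induce {v | c v = i}) := by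
  classical
  obtain ⟨c, hc⟩ := split_conn (ι := ι) hG (Nat.clog 2 (Fintype.card ι))
    (Nat.le_pow_clog (by norm_num) _) hs le_rfl
    (not_bw G _ (Nat.one_le_iff_ne_zero.2 (by positivity)) h)
  refine ⟨c, fun i => ⟨induce_connected (S := Finset.univ.filter (fun v => c v = i)) (by simp)
    (hc i).1 (nonempty_of_not_bw (hc i).2), ?_⟩⟩
  exact le_tw G _ (Finset.univ.filter (fun v => c v = i)) (by simp) s (hc i).2

/-- the main bound for one graph -/
lemma main {ι : Type} [Fintype ι] {W : ι → Type} (H : ∀ i, SimpleGraph (W i)) (a : ℕ)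
    (ha : ∀ i, f (H i) ≤ a) (V : Type) [Fintype V] (G : SimpleGraph V)
    (hG : ¬ IsMinor (disjUnion H) G) :
    tw G ≤ 114 ^ Nat.clog 2 (Fintype.card ι) * (a + 1) := by
  classical
  by_contra hlt
  push Not at hlt
  obtain ⟨S, -, h2, h3⟩ := split_many (ι := ι) (Nat.clog 2 (Fintype.card ι))
    (Nat.le_pow_clog (by norm_num) _) (s := a + 1) (by omega) le_rfl
    (not_bw G _ (Nat.one_le_iff_ne_zero.2 (by positivity)) hlt.le)
  have key : ∀ i, IsMinor (H i) (G.induce (S i : Set V)) := by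
    intro i
    by_contra hno
    have h1 := (tw_le_f (H i) (S i : Set V) (G.induce (S i : Set V)) hno).trans (ha i)
    have h2 : tw (G.induce (S i : Set V)) ≤ a := by exact_mod_cast h1
    have h4 := le_tw G (S i : Set V) (S i) rfl (a + 1) (h3 i)
    omega
  choose B hB1 hB2 hB3 hB4 using fun i => lift_minor (key i)
  apply hG
  refine ⟨fun x => B x.1 x.2, fun x => hB2 x.1 x.2, ?_, ?_⟩
  · rintro ⟨i, x⟩ ⟨j, y⟩ hxy
    by_cases hij : i = j
    · subst hij
      exact hB3 i x y (fun h => hxy (by rw [h]))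
    · refine Set.disjoint_left.2 fun v hv hv' => ?_
      exact (Finset.disjoint_left.1 (h2 i j hij)) (hB1 i x hv) (hB1 j y hv')
  · rintro _ _ ⟨i, x, y, rfl, rfl, h⟩
    exact hB4 i x y h

lemma bound {ι : Type} [Fintype ι] {W : ι → Type} (H : ∀ i, SimpleGraph (W i)) :
    f (disjUnion H) ≤ (114 ^ Nat.clog 2 (Fintype.card ι) : ℕ) * ((⨆ i, f (H i)) + 1) := by
  rcases eq_or_ne (⨆ i, f (H i)) ⊤ with ht | ht
  · rw [ht]
    have : ((114 ^ Nat.clog 2 (Fintype.card ι) : ℕ) : ℕ∞) ≠ 0 := by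
      exact_mod_cast (pow_pos (by norm_num) _ : (0 : ℕ) < 114 ^ Nat.clog 2 (Fintype.card ι)).ne'
    rw [top_add, ENat.mul_top this]
    exact le_top
  · obtain ⟨a, ha⟩ := ENat.ne_top_iff_exists.1 ht
    rw [← ha]
    have h1 : ∀ i, f (H i) ≤ a := fun i => by rw [ha]; exact le_iSup (fun i => f (H i)) i
    conv_lhs => unfold f
    refine iSup_le fun V => iSup_le fun inst => iSup_le fun G => iSup_le fun hG => ?_
    have := main H a h1 V G hG
    exact_mod_cast this

/-- minors of the union of two graphs and of the family of the two graphs -/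
lemma isMinor_sum {W₁ W₂ V : Type} (H₁ : SimpleGraph W₁) (H₂ : SimpleGraph W₂)
    (G : SimpleGraph V)
    (h : IsMinor (disjUnion (ι := Bool) (W := fun b => cond b W₁ W₂)
      (fun b => match b with
        | true => H₁
        | false => H₂)) G) : IsMinor (H₁ ⊕g H₂) G := by
  obtain ⟨B, h1, h2, h3⟩ := h
  refine ⟨fun x => match x with
    | Sum.inl a => B ⟨true, a⟩
    | Sum.inr a => B ⟨false, a⟩, ?_, ?_, ?_⟩
  · rintro (x | x)
    · exact h1 _
    · exact h1 _
  · rintro (x | x) (y | y) hxy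
    · refine h2 _ _ (fun h => hxy ?_)
      have := eq_of_heq (Sigma.mk.inj h).2
      rw [this]
    · refine h2 _ _ (fun h => ?_)
      exact absurd (Sigma.mk.inj h).1 (by decide)
    · refine h2 _ _ (fun h => ?_)
      exact absurd (Sigma.mk.inj h).1 (by decide)
    · refine h2 _ _ (fun h => hxy ?_)
      have := eq_of_heq (Sigma.mk.inj h).2
      rw [this]
  · rintro (x | x) (y | y) hxy
    · exact h3 _ _ ⟨true, x, y, rfl, rfl, by simpa using hxy⟩
    · simp at hxy
    · simp at hxy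
    · exact h3 _ _ ⟨false, x, y, rfl, rfl, by simpa using hxy⟩

lemma two {W₁ W₂ : Type} (H₁ : SimpleGraph W₁) (H₂ : SimpleGraph W₂) :
    f (H₁ ⊕g H₂) ≤ 114 * (max (f H₁) (f H₂) + 1) := by
  have h1 : f (H₁ ⊕g H₂) ≤ f (disjUnion (ι := Bool) (W := fun b => cond b W₁ W₂)
      (fun b => match b with
        | true => H₁
        | false => H₂)) := by
    conv_lhs => unfold f
    refine iSup_le fun V => iSup_le fun inst => iSup_le fun G => iSup_le fun hG => ?_
    exact tw_le_f _ V G (fun h => hG (isMinor_sum H₁ H₂ G h))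
  refine h1.trans ((bound _).trans ?_)
  have h2 : Nat.clog 2 (Fintype.card Bool) = 1 := by
    rw [Fintype.card_bool]
    decide
  rw [h2, pow_one]
  have h3 : (⨆ i, f ((fun b => match b with
        | true => H₁
        | false => H₂ : ∀ b, SimpleGraph (cond b W₁ W₂)) i)) ≤ max (f H₁) (f H₂) := by
    refine iSup_le fun b => ?_
    cases b
    · exact le_max_right _ _
    · exact le_max_left _ _
  gcongr
  norm_num

/-- **Many summands.** (1) The vertices of a finite graph of treewidth at least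
`114 ^ ⌈log₂ k⌉ * s`, `s ≥ 1`, can be coloured with `k` colours such that each colour class induces
a graph of treewidth at least `s`; if the graph is connected, the colour classes can moreover be
chosen connected. (2), (3) For the disjoint union of any family of `k ≥ 1` graphs `H i`,
`f ≤ 114 ^ ⌈log₂ k⌉ (sup f (H i) + 1)` and `f ≤ 114 k ^ 7 (sup f (H i) + 1)`. (4) For two graphs,
`f (H₁ ⊕ H₂) ≤ 114 (max (f H₁) (f H₂) + 1)`, and hence `f (H₁ ⊕ H₂) ≤ 228 (f H₁ + f H₂)` unless
`f H₁ = f H₂ = 0`. -/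
theorem result :
    (∀ (V : Type) [Fintype V] (G : SimpleGraph V) (ι : Type) [Fintype ι] [Nonempty ι] (s : ℕ),
      1 ≤ s → 114 ^ Nat.clog 2 (Fintype.card ι) * s ≤ tw G →
        (∃ c : V → ι, ∀ i, s ≤ tw (G.induce {v | c v = i})) ∧
        (G.Connected → ∃ c : V → ι, ∀ i,
          (G.induce {v | c v = i}).Connected ∧ s ≤ tw (G.induce {v | c v = i}))) ∧
    (∀ (ι : Type) [Fintype ι] [Nonempty ι] (W : ι → Type) (H : ∀ i, SimpleGraph (W i)),
      f (disjUnion H) ≤ (114 ^ Nat.clog 2 (Fintype.card ι) : ℕ) * ((⨆ i, f (H i)) + 1)) ∧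
    (∀ (ι : Type) [Fintype ι] [Nonempty ι] (W : ι → Type) (H : ∀ i, SimpleGraph (W i)),
      f (disjUnion H) ≤ (114 * Fintype.card ι ^ 7 : ℕ) * ((⨆ i, f (H i)) + 1)) ∧
    (∀ (W₁ W₂ : Type) (H₁ : SimpleGraph W₁) (H₂ : SimpleGraph W₂),
      f (H₁ ⊕g H₂) ≤ 114 * (max (f H₁) (f H₂) + 1) ∧
        (1 ≤ f H₁ + f H₂ → f (H₁ ⊕g H₂) ≤ 228 * (f H₁ + f H₂))) := by
  refine ⟨fun V _ G ι _ _ s hs h => ⟨partition G ι s h,
    fun hG => partition_conn G hG ι s hs h⟩, fun ι _ _ W H => bound H,
    fun ι _ _ W H => (bound H).trans ?_, fun W₁ W₂ H₁ H₂ => ⟨two H₁ H₂, fun h1 => ?_⟩⟩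
  · have h := pow_clog_le (Fintype.card ι) Fintype.card_pos
    gcongr
  · have h2 : max (f H₁) (f H₂) + 1 ≤ (f H₁ + f H₂) + (f H₁ + f H₂) :=
      add_le_add (max_le le_self_add le_add_self) h1
    calc f (H₁ ⊕g H₂) ≤ 114 * (max (f H₁) (f H₂) + 1) := two H₁ H₂
      _ ≤ 114 * ((f H₁ + f H₂) + (f H₁ + f H₂)) := by gcongr
      _ = 228 * (f H₁ + f H₂) := by ring

end Pool.Agent.Results.MP_14fa4b_co.ManySummands
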